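import Pool.Agent.Helper17.IR.Goals

/-!
Project IR, packet MACH: the machine (from SubQ, E3, EI, SUN).
-/

set_option autoImplicit false

namespace Pool.Agent.Helper87.IR

open Pool.Agent.Helper17.Rg Pool.Agent.Helper17.IR

/-- two of the units have a quotient bounded by `E`. -/
def Two {r : ℕ} (E : ℕ) (a b : Fin r → ℤ) : Prop :=
  ∃ i j, i ≠ j ∧ |a i - a j| ≤ E ∧ |b i - b j| ≤ E

theorem Two.mono {r : ℕ} {E E' : ℕ} (h : E ≤ E') {a b : Fin r → ℤ} (ht : Two E a b) :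
    Two E' a b := by
  obtain ⟨i, j, hij, h1, h2⟩ := ht
  exact ⟨i, j, hij, by omega, by omega⟩

/-- a uniform bound over a finite set. -/
theorem unif {α : Type*} (F : Finset α) (P : α → ℕ → Prop)
    (hmono : ∀ u E E', E ≤ E' → P u E → P u E') (h : ∀ u ∈ F, ∃ E, P u E) :
    ∃ E, ∀ u ∈ F, P u E := by
  classical
  choose! e he using h
  refine ⟨∑ u ∈ F, e u, fun u hu => hmono u (e u) _ ?_ (he u hu)⟩
  exact Finset.single_le_sum (f := e) (fun _ _ => Nat.zero_le _) hu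

theorem sunF (hS : SUN) {r : ℕ} (F : Finset (Fin r → ℚ)) (hF : ∀ u ∈ F, u ≠ 0) :
    ∃ E : ℕ, ∀ u ∈ F, ∀ a b : Fin r → ℤ,
      ∑ i, u i * ((2 : ℚ) ^ a i * 3 ^ b i) = 0 → Two E a b := by
  apply unif F (fun u E => ∀ a b : Fin r → ℤ,
      ∑ i, u i * ((2 : ℚ) ^ a i * 3 ^ b i) = 0 → Two E a b)
  · intro u E E' hE h a b hab
    exact (h a b hab).mono hE
  · intro u hu
    exact hS r u (hF u hu)

theorem gMach (hQ : SubQ) (h3 : E3) (hI : EI) (hS : SUN) : Mach := by
  classical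
  intro r c H ρ σ ε K κ hρ hρ1 hρσ hε hκ
  -- the numbers t1 < t2
  set m : ℝ := min 1 σ with hm
  have hρm : ρ < m := lt_min hρ1 hρσ
  set t1 : ℝ := (ρ + m) / 2 with ht1
  set t2 : ℝ := (t1 + m) / 2 with ht2
  have h01 : ρ < t1 := by rw [ht1]; linarith
  have h1m : t1 < m := by rw [ht1]; linarith
  have h12 : t1 < t2 := by rw [ht2]; linarith
  have h2m : t2 < m := by rw [ht2]; linarith
  have ht1p : 0 < t1 := hρ.trans h01
  have ht2p : 0 < t2 := ht1p.trans h12
  have hσp : 0 < σ := hρ.trans hρσ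
  have ht11 : t1 < 1 := h1m.trans_le (min_le_left _ _)
  have ht2σ : t2 < σ := h2m.trans_le (min_le_right _ _)
  set δ : ℝ := -Real.logb 2 t1 with hδ
  set ε' : ℝ := Real.logb 2 t2 - Real.logb 2 t1 with hε'
  have hδp : 0 < δ := by
    rw [hδ, neg_pos]
    exact Real.logb_neg (by norm_num) ht1p ht11
  have hε'p : 0 < ε' := by
    rw [hε', sub_pos]
    exact Real.logb_lt_logb (by norm_num) ht1p h12
  have e1 : ∀ N : ℕ, (2 : ℝ) ^ (-δ * N) = t1 ^ N := by
    intro N
    rw [Real.rpow_mul_natCast (by norm_num), hδ, neg_neg,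
      Real.rpow_logb (by norm_num) (by norm_num) ht1p]
  have e2 : ∀ N : ℕ, (2 : ℝ) ^ (-ε' * N) = (t1 / t2) ^ N := by
    intro N
    rw [Real.rpow_mul_natCast (by norm_num), hε', neg_sub, Real.rpow_sub (by norm_num),
      Real.rpow_logb (by norm_num) (by norm_num) ht1p,
      Real.rpow_logb (by norm_num) (by norm_num) ht2p]
  -- large N
  have hA : ∃ NA : ℕ, ∀ N, NA ≤ N → K * ρ ^ N ≤ t1 ^ N := by
    have hlim : Filter.Tendsto (fun N : ℕ => K * (ρ / t1) ^ N) Filter.atTop (nhds (K * 0)) :=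
      (tendsto_pow_atTop_nhds_zero_of_lt_one (by positivity)
        ((div_lt_one ht1p).2 h01)).const_mul K
    rw [mul_zero] at hlim
    have hev := hlim.eventually (Iio_mem_nhds (show (0 : ℝ) < 1 by norm_num))
    obtain ⟨NA, hNA⟩ := Filter.eventually_atTop.1 hev
    refine ⟨NA, fun N hN => ?_⟩
    have h := hNA N hN
    simp only [Set.mem_Iio, div_pow] at h
    have hp : 0 < t1 ^ N := by positivity
    have h' : K * ρ ^ N = K * (ρ ^ N / t1 ^ N) * t1 ^ N := by field_simp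
    rw [h']
    nlinarith
  have hB : ∃ NB : ℕ, ∀ N, NB ≤ N → t2 ^ N ≤ κ * σ ^ N := by
    have hlim : Filter.Tendsto (fun N : ℕ => (t2 / σ) ^ N) Filter.atTop (nhds 0) :=
      tendsto_pow_atTop_nhds_zero_of_lt_one (by positivity) ((div_lt_one hσp).2 ht2σ)
    have hev := hlim.eventually (Iio_mem_nhds hκ)
    obtain ⟨NB, hNB⟩ := Filter.eventually_atTop.1 hev
    refine ⟨NB, fun N hN => ?_⟩
    have h := hNB N hN
    simp only [Set.mem_Iio, div_pow] at h
    have hp : 0 < σ ^ N := by positivity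
    exact ((div_lt_iff₀ hp).1 h).le
  obtain ⟨NA, hNA⟩ := hA
  obtain ⟨NB, hNB⟩ := hB
  obtain ⟨N1, F1, hF1, hN1⟩ := hQ r c H δ hδp
  -- the statement for one relation `u`
  have key : ∀ u ∈ F1, ∃ E : ℕ, ∀ N : ℕ, max (max NA NB) E ≤ N →
      ∀ (a b : Fin r → ℤ) (P : ℤ) (i0 : Fin r),
      (∀ i, |a i| ≤ H * N ∧ |b i| ≤ H * N) →
      |(P : ℝ) - ∑ i, (c i : ℝ) * (2 ^ a i * 3 ^ b i)| ≤ K * ρ ^ N →
      c i0 ≠ 0 → κ * σ ^ N ≤ (2 : ℝ) ^ a i0 * 3 ^ b i0 → (b i0 : ℝ) ≤ -(ε * N) →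
      u.1 * P + ∑ i, u.2 i * ((2 : ℚ) ^ a i * 3 ^ b i) = 0 → Two E a b := by
    intro u hu
    by_cases hu1 : u.1 = 0
    · have hu2 : u.2 ≠ 0 := by
        intro h
        exact hF1 u hu (Prod.ext hu1 h)
      obtain ⟨E, hE⟩ := hS r u.2 hu2
      refine ⟨E, fun N _ a b P i0 _ _ _ _ _ hrel => hE a b ?_⟩
      rw [hu1, zero_mul, zero_add] at hrel
      exact hrel
    · set c' : Fin r → ℚ := fun i => - u.2 i / u.1 with hc'
      obtain ⟨NI, FI, hFI, hNI⟩ := hI r (fun i => c' i - c i) H ε' hε'p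
      obtain ⟨N3, F3, hF3, hN3⟩ := h3 r c' H ε hε
      obtain ⟨EI', hEI⟩ := sunF hS FI hFI
      obtain ⟨E3', hE3⟩ := sunF hS F3 hF3
      refine ⟨EI' + E3' + NI + N3, fun N hN a b P i0 hab hP hc0 hX hb hrel => ?_⟩
      have hNNI : NI ≤ N := by
        have := (le_max_right (max NA NB) (EI' + E3' + NI + N3)).trans hN
        omega
      have hNN3 : N3 ≤ N := by
        have := (le_max_right (max NA NB) (EI' + E3' + NI + N3)).trans hN
        omega
      have hNNA : NA ≤ N := ((le_max_left _ _).trans (le_max_left _ _)).trans hN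
      have hNNB : NB ≤ N := ((le_max_right _ _).trans (le_max_left _ _)).trans hN
      have hPc : (P : ℚ) = ∑ i, c' i * ((2 : ℚ) ^ a i * 3 ^ b i) := by
        have h : ∑ i, c' i * ((2 : ℚ) ^ a i * 3 ^ b i)
            = - (∑ i, u.2 i * ((2 : ℚ) ^ a i * 3 ^ b i)) / u.1 := by
          rw [neg_div, Finset.sum_div, ← Finset.sum_neg_distrib]
          refine Finset.sum_congr rfl fun i _ => ?_
          rw [hc']
          ring
        rw [h, eq_div_iff hu1]
        linarith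
      by_cases hcc : c' i0 = c i0
      · obtain ⟨v, hv, hrel'⟩ := hN3 N hNN3 a b P 0 0 i0 hab (by rw [hcc]; exact hc0)
          (by rw [← hPc]; simp) (by push_cast; linarith)
        exact (hE3 v hv a b hrel').mono (by omega)
      · have hPR : (P : ℝ) = ∑ i, (c' i : ℝ) * ((2 : ℝ) ^ a i * 3 ^ b i) := by
          have h := congrArg (fun x : ℚ => (x : ℝ)) hPc
          push_cast at h
          exact h
        have hdiff : ∑ i, ((c' i - c i : ℚ) : ℝ) * ((2 : ℝ) ^ a i * 3 ^ b i)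
            = (P : ℝ) - ∑ i, (c i : ℝ) * (2 ^ a i * 3 ^ b i) := by
          rw [hPR, ← Finset.sum_sub_distrib]
          refine Finset.sum_congr rfl fun i _ => ?_
          push_cast
          ring
        obtain ⟨v, hv, hrel'⟩ := hNI N hNNI a b i0 hab (sub_ne_zero.2 hcc) (by
          rw [hdiff, e2]
          have s1 : |(P : ℝ) - ∑ i, (c i : ℝ) * (2 ^ a i * 3 ^ b i)| ≤ t1 ^ N :=
            hP.trans (hNA N hNNA)
          have s2 : t1 ^ N = (t1 / t2) ^ N * t2 ^ N := by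
            rw [← mul_pow, div_mul_cancel₀ _ ht2p.ne']
          have s3 : (t1 / t2) ^ N * t2 ^ N ≤ (t1 / t2) ^ N * ((2 : ℝ) ^ a i0 * 3 ^ b i0) :=
            mul_le_mul_of_nonneg_left ((hNB N hNNB).trans hX) (by positivity)
          rw [s2] at s1
          exact s1.trans s3)
        exact (hEI v hv a b hrel').mono (by omega)
  obtain ⟨E, hE⟩ := unif F1 _ (by
    intro u E E' hEE h N hN a b P i0 h1 h2 h3' h4 h5 h6
    exact (h N ((max_le_max_left _ hEE).trans hN) a b P i0 h1 h2 h3' h4 h5 h6).mono hEE) key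
  refine ⟨max (max NA NB) (E + N1), E, fun N hN a b P i0 hab hP hc0 hX hb => ?_⟩
  have hNN1 : N1 ≤ N := by
    have := (le_max_right (max NA NB) (E + N1)).trans hN
    omega
  have hNNA : NA ≤ N := ((le_max_left _ _).trans (le_max_left _ _)).trans hN
  obtain ⟨u, hu, hrel⟩ := hN1 N hNN1 a b P hab (by
    rw [e1]
    exact hP.trans (hNA N hNNA))
  exact hE u hu N ((max_le_max_left _ (Nat.le_add_right _ _)).trans hN) a b P i0 hab hP hc0 hX hb
    hrel

end Pool.Agent.Helper87.IR
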